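import Pool.Agent.Helper70.OB.Goals

/-!
Packet 8721 OB-ATOM: no atom at an accumulation point of the radii.
-/

open MeasureTheory Set Metric Filter
open scoped ENNReal Topology
open Pool.Agent.Helper70.OB

namespace Pool.Agent.Helper81.OB

theorem atom : BAS → ACC → ATOM := by
  intro hB hA k V P m hC a ha hz
  have hk2 := hC.two_le
  have hk : k - 1 < k := by omega
  obtain ⟨hz', hVa, _⟩ := (hA k V P m hC a ha).1 hz (k - 1) hk
  have hVc : ContinuousOn (V (k - 1)) (Ioi 0) := (hB k V P m hC).1 (k - 1) hk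
  -- the primitive
  have hfc : ContinuousOn (fun u => u ^ (2 * k - 2) * (V (k - 1) u + 1)) (Ioi 0) :=
    (continuous_pow _).continuousOn.mul (hVc.add continuousOn_const)
  have hint : ∀ r : ℝ, 0 < r →
      IntervalIntegrable (fun u => u ^ (2 * k - 2) * (V (k - 1) u + 1)) volume 0 r := by
    intro r hr
    have h1 := hC.int (k - 1) hk r hr
    have h2 : IntervalIntegrable (fun u : ℝ => u ^ (2 * k - 2)) volume 0 r :=
      (continuous_pow _).intervalIntegrable _ _
    refine (h1.add h2).congr (fun u _ => ?_)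
    ring
  have hQ : ContinuousAt (fun r : ℝ => ∫ u in (0 : ℝ)..r, u ^ (2 * k - 2) * (V (k - 1) u + 1)) a := by
    refine (intervalIntegral.integral_hasDerivAt_right (hint a ha) ?_ ?_).continuousAt
    · exact hfc.stronglyMeasurableAtFilter isOpen_Ioi a ha
    · exact hfc.continuousAt (Ioi_mem_nhds ha)
  have hlim := hC.mono.tendsto_nhdsGT a
  set M := sInf (m '' Ioi a) with hM
  set Qa := ∫ u in (0 : ℝ)..a, u ^ (2 * k - 2) * (V (k - 1) u + 1) with hQa
  have hP : Tendsto (P (k - 1)) (𝓝[>] a) (𝓝 (Qa - M)) := by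
    have h1 : Tendsto (fun r => (∫ u in (0 : ℝ)..r, u ^ (2 * k - 2) * (V (k - 1) u + 1)) - m r)
        (𝓝[>] a) (𝓝 (Qa - M)) := (hQ.tendsto.mono_left nhdsWithin_le_nhds).sub hlim
    refine h1.congr' ?_
    filter_upwards [self_mem_nhdsWithin] with r hr
    exact (hC.top r (ha.trans hr)).symm
  have key : Qa - M = 0 := by
    by_contra hne
    rcases lt_or_gt_of_ne hne with hneg | hpos
    · have h1 : ∀ᶠ r in 𝓝[>] a, P (k - 1) r < 0 := hP.eventually (gt_mem_nhds hneg)
      obtain ⟨b, hb, hb'⟩ := mem_nhdsGT_iff_exists_Ioo_subset.1 h1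
      obtain ⟨r, hr1, hr2, hr3⟩ := hz' (b - a) (sub_pos.2 hb)
      have h2 := hC.der (k - 1) hk a r ha hr1.le
      rw [hr3, hVa, sub_zero] at h2
      have h3 : 0 < ∫ t in a..r, -(P (k - 1) t / t ^ (2 * k - 2)) := by
        refine intervalIntegral.intervalIntegral_pos_of_pos_on
          (hC.pint (k - 1) hk a r ha hr1.le).neg (fun t ht => ?_) hr1
        have ht0 : 0 < t := ha.trans ht.1
        have h4 : P (k - 1) t < 0 := hb' ⟨ht.1, by linarith [ht.2]⟩
        have h5 : P (k - 1) t / t ^ (2 * k - 2) < 0 := div_neg_of_neg_of_pos h4 (by positivity)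
        linarith
      rw [intervalIntegral.integral_neg, ← h2] at h3
      simp at h3
    · have h1 : ∀ᶠ r in 𝓝[>] a, 0 < P (k - 1) r := hP.eventually (lt_mem_nhds hpos)
      obtain ⟨b, hb, hb'⟩ := mem_nhdsGT_iff_exists_Ioo_subset.1 h1
      obtain ⟨r, hr1, hr2, hr3⟩ := hz' (b - a) (sub_pos.2 hb)
      have h2 := hC.der (k - 1) hk a r ha hr1.le
      rw [hr3, hVa, sub_zero] at h2
      have h3 : 0 < ∫ t in a..r, P (k - 1) t / t ^ (2 * k - 2) := by
        refine intervalIntegral.intervalIntegral_pos_of_pos_on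
          (hC.pint (k - 1) hk a r ha hr1.le) (fun t ht => ?_) hr1
        have ht0 : 0 < t := ha.trans ht.1
        have h4 : 0 < P (k - 1) t := hb' ⟨ht.1, by linarith [ht.2]⟩
        positivity
      rw [← h2] at h3
      exact lt_irrefl _ h3
  have : Qa = M := by linarith
  rw [this]
  exact hlim

end Pool.Agent.Helper81.OB
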