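import Pool.Agent.Helper73.OB.GoalsA

/-!
Project OB, packet ROOT, part 1: flips and the laws.
-/

open MeasureTheory ProbabilityTheory
open scoped ENNReal

namespace Pool.Agent.Helper81.OB

open Pool.Agent.Helper73.OB

/-! ### Fair bits -/

theorem bit_cases (c : Bit) : c = 0 ∨ c = 1 := by
  revert c
  decide

theorem bit_ne (c : Bit) : ¬c + 1 = c := by
  revert c
  decide

theorem bit_of_ne (c d : Bit) (h : ¬d = c) : d = c + 1 := by
  revert c d
  decide

theorem fair_add (c : Bit) :
    MeasurePreserving (fun x : Bit => x + c) fair fair := by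
  refine ⟨measurable_of_countable _, ?_⟩
  unfold fair
  have hm : Measurable fun x : Bit => x + c := measurable_of_countable _
  rw [Measure.map_smul, Measure.map_add _ _ hm, Measure.map_dirac' hm, Measure.map_dirac' hm]
  rcases bit_cases c with rfl | rfl
  · simp
  · have h1 : (0 : Bit) + 1 = 1 := by decide
    have h2 : (1 : Bit) + 1 = 0 := by decide
    rw [h1, h2, add_comm]

theorem fair2_prob (hP : IsProbabilityMeasure fair) : IsProbabilityMeasure fair2 := by
  have := hP
  infer_instance

theorem fair2_add (hP : IsProbabilityMeasure fair) (c : Bit → Bit) :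
    MeasurePreserving (fun x : Bit → Bit => x + c) fair2 fair2 := by
  have := hP
  exact measurePreserving_pi (fun _ : Bit => fair) (fun _ : Bit => fair) fun i => fair_add (c i)

/-- Two pairs of fair bits as a family. -/
theorem fair2_pair (hP : IsProbabilityMeasure fair) (c : Bit) :
    MeasurePreserving (fun x : (Bit → Bit) × (Bit → Bit) => fun d : Bit => if d = c then x.2 else x.1)
      (fair2.prod fair2) (Measure.pi fun _ : Bit => fair2) := by
  have := hP
  have hm : Measurable (fun x : (Bit → Bit) × (Bit → Bit) => fun d : Bit => if d = c then x.2 else x.1) := by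
    refine measurable_pi_lambda _ fun d => ?_
    by_cases h : d = c
    · simp only [h, if_true]
      exact measurable_snd
    · simp only [h, if_false]
      exact measurable_fst
  refine ⟨hm, ?_⟩
  symm
  refine Measure.pi_eq fun s hs => ?_
  rw [Measure.map_apply hm (MeasurableSet.univ_pi hs)]
  have h1 : (fun x : (Bit → Bit) × (Bit → Bit) => fun d : Bit => if d = c then x.2 else x.1) ⁻¹'
      (Set.univ.pi s) = s (c + 1) ×ˢ s c := by
    ext x
    simp only [Set.mem_preimage, Set.mem_pi, Set.mem_univ, forall_true_left, Set.mem_prod]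
    constructor
    · intro h
      refine ⟨?_, ?_⟩
      · have := h (c + 1)
        rwa [if_neg (bit_ne c)] at this
      · have := h c
        rwa [if_pos rfl] at this
    · rintro ⟨h2, h3⟩ d
      by_cases hd : d = c
      · rw [if_pos hd, hd]
        exact h3
      · rw [if_neg hd]
        rw [bit_of_ne c d hd]
        exact h2
  rw [h1, Measure.prod_prod]
  have h2 : ∏ i : Bit, fair2 (s i) = fair2 (s 0) * fair2 (s 1) := Fin.prod_univ_two _
  rw [h2]
  rcases bit_cases c with rfl | rfl
  · rw [zero_add, mul_comm]
  · have h2 : (1 : Bit) + 1 = 0 := by decide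
    rw [h2]

/-! ### Flips of the bits `o` -/

/-- Add `c` to the bits `o` of a label. -/
def flipL (c : Bit → Bit) (a : Lb3) : Lb3 := (a.1, a.2.1, a.2.2.1, a.2.2.2.1, a.2.2.2.2 + c)

theorem flipL_mp (hP : IsProbabilityMeasure fair) (e : unitInterval)
    (hb : IsProbabilityMeasure (ber e)) (c : Bit → Bit) :
    MeasurePreserving (flipL c) (lawL3 e) (lawL3 e) := by
  have := hP
  have := hb
  exact (MeasurePreserving.id (ber e)).prod ((MeasurePreserving.id fair2).prod
    ((MeasurePreserving.id uni).prod ((MeasurePreserving.id uni2).prod (fair2_add hP c))))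

section

variable {S : Type} {β : S → S} {p : Bit → S} {δ : Bit}

open Classical in
/-- The change of the bits at the word `w`. -/
noncomputable def cg (p : Bit → S) (g : Bit → Bit) (w : List S) : Bit → Bit :=
  if w = [] then g else if h : ∃ z, w.head? = some (p z) then fun _ => g h.choose else 0

theorem cg_nil (g : Bit → Bit) : cg p g [] = g := by
  unfold cg
  rw [if_pos rfl]

theorem cg_cons (hp : Function.Injective p) (g : Bit → Bit) (z : Bit) (w : List S) :
    cg p g (p z :: w) = fun _ => g z := by
  unfold cg
  rw [if_neg (by simp)]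
  have h : ∃ z', (p z :: w).head? = some (p z') := ⟨z, rfl⟩
  rw [dif_pos h]
  have h1 : some (p z) = some (p h.choose) := h.choose_spec
  rw [← hp (Option.some.inj h1)]

/-- The flip. -/
noncomputable def TT (β : S → S) (p : Bit → S) (g : Bit → Bit) (ω : RW β → Lb3) : RW β → Lb3 :=
  fun w => flipL (cg p g w.1) (ω w)

theorem TT_mp (hP : IsProbabilityMeasure fair) (e : unitInterval)
    (hb : IsProbabilityMeasure (ber e)) (hl : IsProbabilityMeasure (lawL3 e)) (g : Bit → Bit) :
    MeasurePreserving (TT β p g) (iid β (lawL3 e)) (iid β (lawL3 e)) := by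
  have hf : ∀ w : RW β, Measurable (flipL (cg p g w.1)) := fun w => (flipL_mp hP e hb _).measurable
  refine ⟨?_, ?_⟩
  · exact measurable_pi_lambda _ fun w => (hf w).comp (measurable_pi_apply w)
  · show (Measure.infinitePi fun _ : RW β => lawL3 e).map
      (fun ω w => flipL (cg p g w.1) (ω w)) = _
    rw [Measure.infinitePi_map_pi (fun _ : RW β => lawL3 e) hf]
    congr 1
    funext w
    exact (flipL_mp hP e hb _).map_eq

/-! ### The skeleton law from the labels -/

/-- The skeleton value from the root label and the block bits. -/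
noncomputable def KK (δ : Bit) (x : Lb3 × (Bit → Bit)) : Sk :=
  (x.1.1, (fun d z => if x.1.1 = true then (if d = δ then x.2 z else x.1.2.1 z) else x.2 0 + z),
    x.1.2.2.1, x.1.2.2.2.1)

/-- The rearrangement of the label. -/
def rr (x : Lb3 × (Bit → Bit)) :
    Bool × (((Bit → Bit) × (Bit → Bit)) × (unitInterval × (Bit → unitInterval))) :=
  (x.1.1, ((x.1.2.1, x.2), (x.1.2.2.1, x.1.2.2.2.1)))

theorem rr_mp (hP : IsProbabilityMeasure fair) (e : unitInterval)
    (hb : IsProbabilityMeasure (ber e)) (hl : IsProbabilityMeasure (lawL3 e)) :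
    MeasurePreserving rr ((lawL3 e).prod fair2)
      ((ber e).prod ((fair2.prod fair2).prod (uni.prod uni2))) := by
  have := hP
  have := hb
  -- forget the bits `o`
  have h1 : MeasurePreserving
      (fun a : Lb3 => ((a.1, (a.2.1, (a.2.2.1, a.2.2.2.1))) :
        Bool × ((Bit → Bit) × (unitInterval × (Bit → unitInterval)))))
      (lawL3 e) ((ber e).prod (fair2.prod (uni.prod uni2))) :=
    (MeasurePreserving.id (ber e)).prod ((MeasurePreserving.id fair2).prod
      ((MeasurePreserving.id uni).prod (measurePreserving_fst (μ := uni2) (ν := fair2))))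
  have h2 := h1.prod (MeasurePreserving.id fair2)
  have h3 := (measurePreserving_prodAssoc (ber e) (fair2.prod (uni.prod uni2)) fair2).comp h2
  -- `((e,w),h) ↦ ((e,h),w)`
  have h4 : MeasurePreserving
      (fun x : ((Bit → Bit) × (unitInterval × (Bit → unitInterval))) × (Bit → Bit) =>
        ((x.1.1, x.2), x.1.2))
      ((fair2.prod (uni.prod uni2)).prod fair2) ((fair2.prod fair2).prod (uni.prod uni2)) := by
    have a1 := measurePreserving_prodAssoc fair2 (uni.prod uni2) fair2
    have a2 : MeasurePreserving (Prod.map id Prod.swap)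
        (fair2.prod ((uni.prod uni2).prod fair2)) (fair2.prod (fair2.prod (uni.prod uni2))) :=
      (MeasurePreserving.id fair2).prod Measure.measurePreserving_swap
    have a3 := (measurePreserving_prodAssoc fair2 fair2 (uni.prod uni2)).symm
    exact a3.comp (a2.comp a1)
  exact ((MeasurePreserving.id (ber e)).prod h4).comp h3

/-- The two pairs as a family. -/
noncomputable def ee (δ : Bit) (m : Bool) (x : (Bit → Bit) × (Bit → Bit)) : Bit → Bit → Bit :=
  fun d => if d = (if m = true then δ else 0) then x.2 else x.1

/-- The skeleton law from the labels and fair bits. -/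
theorem KK_law (hP : IsProbabilityMeasure fair) (e : unitInterval)
    (hb : IsProbabilityMeasure (ber e)) (hl : IsProbabilityMeasure (lawL3 e)) (δ : Bit) :
    ((lawL3 e).prod fair2).map (KK δ) = kap e := by
  have := hP
  have := hb
  have := hl
  set ν := uni.prod uni2 with hν
  -- the bits
  have h1 : MeasurePreserving
      (fun x : Bool × (((Bit → Bit) × (Bit → Bit)) × (unitInterval × (Bit → unitInterval))) =>
        (x.1, (ee δ x.1 x.2.1, x.2.2)))
      ((ber e).prod ((fair2.prod fair2).prod ν))
      ((ber e).prod ((Measure.pi fun _ : Bit => fair2).prod ν)) := by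
    have hm : ∀ m : Bool, MeasurePreserving
        (fun x : ((Bit → Bit) × (Bit → Bit)) × (unitInterval × (Bit → unitInterval)) =>
          (ee δ m x.1, x.2)) ((fair2.prod fair2).prod ν)
        ((Measure.pi fun _ : Bit => fair2).prod ν) := fun m =>
      (fair2_pair hP (if m = true then δ else 0)).prod (MeasurePreserving.id ν)
    refine (MeasurePreserving.id (ber e)).skew_product
      (g := fun (m : Bool) (x : ((Bit → Bit) × (Bit → Bit)) × (unitInterval × (Bit → unitInterval))) =>
        (ee δ m x.1, x.2)) ?_ (Filter.Eventually.of_forall fun m => (hm m).map_eq)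
    exact measurable_from_prod_countable_right fun m => (hm m).measurable
  have h2 := h1.comp (rr_mp hP e hb hl)
  have hkm : Measurable (fun s : Bool × ((Bit → Bit → Bit) × (unitInterval × (Bit → unitInterval))) =>
      ((s.1, (if s.1 = true then s.2.1 else fun _ z => s.2.1 0 0 + z), s.2.2.1, s.2.2.2) : Sk)) := by
    refine measurable_fst.prodMk (Measurable.prodMk ?_ measurable_snd.snd)
    refine Measurable.ite (measurable_fst (measurableSet_singleton true)) measurable_snd.fst ?_
    refine measurable_pi_lambda _ fun _ => measurable_pi_lambda _ fun z => ?_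
    have h3 : Measurable fun s : Bool × ((Bit → Bit → Bit) × (unitInterval × (Bit → unitInterval))) =>
        s.2.1 0 0 := (measurable_pi_apply 0).comp ((measurable_pi_apply 0).comp measurable_snd.fst)
    exact (measurable_of_countable fun x : Bit => x + z).comp h3
  unfold kap
  rw [← h2.map_eq, Measure.map_map hkm h2.measurable]
  congr 1
  funext x
  rcases x with ⟨⟨m, b, V, r, o⟩, h⟩
  refine Prod.ext rfl (Prod.ext ?_ rfl)
  funext d z
  cases m
  · simp [KK, rr, ee]
  · simp only [KK, rr, ee, Function.comp_apply, if_true]
    split_ifs <;> rfl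

end

end Pool.Agent.Helper81.OB
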