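import Pool.Agent.Helper81.OB.ROOT1

/-!
Project OB, packet ROOT: the law of the skeleton value at the root of model 3.
-/

open MeasureTheory ProbabilityTheory
open scoped ENNReal

namespace Pool.Agent.Helper81.OB

open Pool.Agent.Helper73.OB

section

variable {S : Type} {β : S → S} {p : Bit → S} {δ : Bit}

/-- The marker bit at the root. -/
abbrev Mr (β : S → S) : (RW β → Lb3) → Bool := fun ω => (ω (rootW β)).1

/-- The real at the root. -/
abbrev Vr (β : S → S) : (RW β → Lb3) → unitInterval := fun ω => (ω (rootW β)).2.2.1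

/-- The bits at the root. -/
abbrev or (β : S → S) : (RW β → Lb3) → Bit → Bit := fun ω => (ω (rootW β)).2.2.2.2

/-- The block bits at the root. -/
noncomputable abbrev Bd (β : S → S) (p : Bit → S) (δ : Bit) (ω : RW β → Lb3) (z : Bit) : Bit :=
  bitAt p δ (shiftR β) (Mr β) (Vr β) (or β) ω z

/-- `a'` is `a` with `c` added to the bits `o`. -/
def Sh (c : Bit → Bit) (a a' : Lb3) : Prop :=
  a'.1 = a.1 ∧ a'.2.1 = a.2.1 ∧ a'.2.2.1 = a.2.2.1 ∧ a'.2.2.2.1 = a.2.2.2.1 ∧
    ∀ t, a'.2.2.2.2 t = a.2.2.2.2 t + c t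

/-- The words `u_k` as points. -/
def UU (hr : ∀ k z, Red β (uw p δ k z)) (k : ℕ) (z : Bit) : RW β := ⟨uw p δ k z, hr k z⟩

/-- `ω'` is `ω` with the flips `g`. -/
def Rl (hr : ∀ k z, Red β (uw p δ k z)) (g : Bit → Bit) (ω ω' : RW β → Lb3) : Prop :=
  Sh g (ω (rootW β)) (ω' (rootW β)) ∧
    ∀ k z, 1 ≤ k → Sh (fun _ => g z) (ω (UU hr k z)) (ω' (UU hr k z))

theorem kfar_set (hr : ∀ k z, Red β (uw p δ k z)) (ω : RW β → Lb3) (z : Bit) :
    kfar p δ (shiftR β) (Mr β) ω z = sInf {k | 1 ≤ k ∧ (ω (UU hr k z)).1 = true} := by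
  unfold kfar
  congr 1
  ext k
  refine and_congr_right fun _ => ?_
  show (run (shiftR β) (uw p δ k z) ω (rootW β)).1 = true ↔ _
  rw [run_shiftR_root (hr k z)]
  rfl

theorem kfar_eq {hr : ∀ k z, Red β (uw p δ k z)} {g : Bit → Bit} {ω ω' : RW β → Lb3}
    (h : Rl hr g ω ω') (z : Bit) :
    kfar p δ (shiftR β) (Mr β) ω' z = kfar p δ (shiftR β) (Mr β) ω z := by
  rw [kfar_set hr, kfar_set hr]
  congr 1
  ext k
  refine and_congr_right fun hk => ?_
  rw [(h.2 k z hk).1]

theorem pfar_root (hr : ∀ k z, Red β (uw p δ k z)) (ω : RW β → Lb3) (z : Bit) :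
    pfar p δ (shiftR β) (Mr β) ω z (rootW β) =
      ω (UU hr (kfar p δ (shiftR β) (Mr β) ω z) z) :=
  run_shiftR_root (hr _ z) ω

theorem UU_zero (hr : ∀ k z, Red β (uw p δ k z)) (z : Bit) : UU hr 0 z = rootW β :=
  Subtype.ext rfl

/-- The label of the far end. -/
theorem far_sh {hr : ∀ k z, Red β (uw p δ k z)} {g : Bit → Bit} {ω ω' : RW β → Lb3}
    (h : Rl hr g ω ω') (z : Bit)
    (hg : 1 ≤ kfar p δ (shiftR β) (Mr β) ω z ∨ ∀ t, g t = g z) :
    Sh (fun _ => g z) (pfar p δ (shiftR β) (Mr β) ω z (rootW β))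
      (pfar p δ (shiftR β) (Mr β) ω' z (rootW β)) := by
  rw [pfar_root hr, pfar_root hr, kfar_eq h]
  rcases Nat.eq_zero_or_pos (kfar p δ (shiftR β) (Mr β) ω z) with h0 | h0
  · rw [h0, UU_zero]
    rcases hg with hg | hg
    · omega
    · obtain ⟨a1, a2, a3, a4, a5⟩ := h.1
      exact ⟨a1, a2, a3, a4, fun t => by rw [a5 t, hg t]⟩
  · exact h.2 _ z h0

theorem sfar_eq {hr : ∀ k z, Red β (uw p δ k z)} {g : Bit → Bit} {ω ω' : RW β → Lb3}
    (h : Rl hr g ω ω') (z : Bit) :
    sfar p δ (shiftR β) (Mr β) ω' z = sfar p δ (shiftR β) (Mr β) ω z := by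
  unfold sfar
  rw [kfar_eq h]

/-- The change of the block bit, marker at the root. -/
theorem bit_true {hr : ∀ k z, Red β (uw p δ k z)} {g : Bit → Bit} {ω ω' : RW β → Lb3}
    (h : Rl hr g ω ω') (hM : Mr β ω = true) (z : Bit)
    (hg : 1 ≤ kfar p δ (shiftR β) (Mr β) ω z ∨ ∀ t, g t = g z) :
    Bd β p δ ω' z = Bd β p δ ω z + g z := by
  have hM' : Mr β ω' = true := by
    show (ω' (rootW β)).1 = true
    rw [h.1.1]
    exact hM
  have hf := far_sh h z hg
  have e1 : Vr β (pfar p δ (shiftR β) (Mr β) ω' z) = Vr β (pfar p δ (shiftR β) (Mr β) ω z) :=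
    hf.2.2.1
  have e2 : Vr β ω' = Vr β ω := h.1.2.2.1
  unfold Bd bitAt
  simp only [pnear, snear, knear, if_pos hM, if_pos hM', e1, e2, kfar_eq h, sfar_eq h]
  split_ifs
  · rw [show or β ω' z = or β ω z + g z from h.1.2.2.2.2 z]
    ring
  · rw [show or β (pfar p δ (shiftR β) (Mr β) ω' z) (sfar p δ (shiftR β) (Mr β) ω z) =
      or β (pfar p δ (shiftR β) (Mr β) ω z) (sfar p δ (shiftR β) (Mr β) ω z) + g z from
        hf.2.2.2.2 _]
    ring

/-- The change of the block bit, constant flip. -/
theorem bit_const {hr : ∀ k z, Red β (uw p δ k z)} {g : Bit → Bit} {ω ω' : RW β → Lb3}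
    (h : Rl hr g ω ω') (hg : ∀ t t', g t = g t') (z : Bit) :
    Bd β p δ ω' z = Bd β p δ ω z + g z := by
  by_cases hM : Mr β ω = true
  · exact bit_true h hM z (Or.inr fun t => hg t z)
  have hM' : ¬Mr β ω' = true := by
    show ¬(ω' (rootW β)).1 = true
    rw [h.1.1]
    exact hM
  have hf := far_sh h z (Or.inr fun t => hg t z)
  have hn := far_sh h (z + 1) (Or.inr fun t => hg t (z + 1))
  have e1 : Vr β (pfar p δ (shiftR β) (Mr β) ω' z) = Vr β (pfar p δ (shiftR β) (Mr β) ω z) :=
    hf.2.2.1
  have e2 : Vr β (pfar p δ (shiftR β) (Mr β) ω' (z + 1)) =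
    Vr β (pfar p δ (shiftR β) (Mr β) ω (z + 1)) := hn.2.2.1
  unfold Bd bitAt
  simp only [pnear, snear, knear, if_neg hM, if_neg hM', e1, e2, kfar_eq h, sfar_eq h]
  split_ifs
  · rw [show or β (pfar p δ (shiftR β) (Mr β) ω' (z + 1)) (sfar p δ (shiftR β) (Mr β) ω (z + 1)) =
      or β (pfar p δ (shiftR β) (Mr β) ω (z + 1)) (sfar p δ (shiftR β) (Mr β) ω (z + 1)) +
        g (z + 1) from hn.2.2.2.2 _, hg (z + 1) z]
    ring
  · rw [show or β (pfar p δ (shiftR β) (Mr β) ω' z) (sfar p δ (shiftR β) (Mr β) ω z) =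
      or β (pfar p δ (shiftR β) (Mr β) ω z) (sfar p δ (shiftR β) (Mr β) ω z) + g z from
        hf.2.2.2.2 _]
    ring

/-- The flip. -/
theorem Rl_TT (hp : Function.Injective p)
    (hr : ∀ k z, Red β (uw p δ k z)) (hu : ∀ k z, uw p δ (k + 1) z = p z :: uw p δ k (z + δ))
    (g : Bit → Bit) (ω : RW β → Lb3) : Rl hr g ω (TT β p g ω) := by
  refine ⟨⟨rfl, rfl, rfl, rfl, fun t => ?_⟩, fun k z hk => ⟨rfl, rfl, rfl, rfl, fun t => ?_⟩⟩
  · show (ω (rootW β)).2.2.2.2 t + cg p g [] t = _
    rw [cg_nil]
  · show (ω (UU hr k z)).2.2.2.2 t + cg p g (uw p δ k z) t = _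
    obtain ⟨k, rfl⟩ := Nat.exists_eq_succ_of_ne_zero (by omega : k ≠ 0)
    rw [Nat.succ_eq_add_one, hu, cg_cons hp]

end

/-! ### The theorem -/

/-- **ROOT.** -/
theorem root (hUW : S_UW) (hBIT : S_BIT) (hFAR : S_FAR) (hPRB : S_PRB) (hMEAS : S_MEAS)
    (hMOD : S_MODSYS) : S_ROOT := by
  intro S _ β p δ hFr e he
  obtain ⟨u1, u2, -, -, -⟩ := hUW S β p δ hFr
  have hr : ∀ k z, Red β (uw p δ k z) := fun k z => (u1 k z).1
  refine ⟨?_, ?_⟩
  · have hP := hPRB.1
    obtain ⟨hb, -, -, hl, -, -, -, hl1, hl2, -⟩ := hPRB.2 e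
    have := hP
    have := hb
    have := hl
    set m : Measure (RW β → Lb3) := iid β (lawL3 e) with hm
    obtain ⟨hsys, hbnl⟩ := hMOD S β hFr.inv Lb3 (lawL3 e)
    have hsm : ∀ s, Measurable (shiftR (L := Lb3) β s) := fun s => (hsys.mp s).measurable
    have hroot : Measurable fun ω : RW β → Lb3 => ω (rootW β) := measurable_pi_apply _
    have hMm : Measurable (Mr β) := hroot.fst
    have hVm : Measurable (Vr β) := hroot.snd.snd.fst
    have hom : Measurable (or β) := hroot.snd.snd.snd.snd
    obtain ⟨m1, m2, -, -⟩ := hMEAS S (RW β → Lb3) p δ (shiftR β) hsm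
    have hBm : Measurable (Bd β p δ) :=
      measurable_pi_lambda _ fun z => (m1 (Mr β) (Vr β) (or β) z hMm hVm hom).2.2.2
    have hSm := (m2 (fun ω : RW β → Lb3 => ω (rootW β)) hroot).1
    -- almost sure facts
    have hae : ∀ᵐ ω ∂m, ∀ z : Bit, 1 ≤ kfar p δ (shiftR β) (Mr β) ω z ∧
        (Mr β ω = false → Bd β p δ ω z = Bd β p δ ω 0 + z) := by
      have h1 := hFAR S β p δ hFr (RW β → Lb3) m (shiftR β) hsys Lb3 (lawL3 e)
        (fun ω : RW β → Lb3 => ω (rootW β)) hbnl (fun a => a.1) (fun a => a.2.2.1)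
        measurable_fst measurable_snd.snd.fst (by rw [hl1]; simpa using he) hl2
      filter_upwards [h1] with ω hω
      have hex : ∀ z : Bit, ∃ k, 1 ≤ k ∧ Mr β (run (shiftR β) (uw p δ k z) ω) = true :=
        fun z => (hω z).1
      have hV : ∀ z : Bit, Vr β (pfar p δ (shiftR β) (Mr β) ω z) ≠
          Vr β (pnear p δ (shiftR β) (Mr β) ω z) := by
        intro z
        unfold pnear
        split_ifs with hMM
        · exact (hω z).2.1
        · exact (hω z).2.2
      intro z
      refine ⟨?_, fun hM => ?_⟩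
      · exact (Nat.sInf_mem (hex z)).1
      · rcases bit_cases z with rfl | rfl
        · rw [add_zero]
        · have h2 := (hBIT S (RW β → Lb3) β p δ hFr (shiftR β)
            (shiftR_inv hFr.inv) (Mr β) (Vr β) (or β) ω hex hV 0).2.1 hM
          rw [zero_add] at h2
          exact h2
    -- the flips
    set T' : (Bit → Bit) → (RW β → Lb3) → (RW β → Lb3) := fun g ω =>
      if Mr β ω = true then TT β p g ω else TT β p (fun _ => g 0) ω with hT'
    have hMT : ∀ g ω, Mr β (TT β p g ω) = Mr β ω := fun g ω => rfl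
    have hset : MeasurableSet {ω : RW β → Lb3 | Mr β ω = true} := hMm (measurableSet_singleton true)
    have hTmp : ∀ g, MeasurePreserving (TT β p g) m m := fun g => TT_mp hP e hb hl g
    have hT'm : ∀ g, Measurable (T' g) := fun g =>
      Measurable.ite hset (hTmp g).measurable (hTmp _).measurable
    have hT'mp : ∀ g, MeasurePreserving (T' g) m m := by
      intro g
      refine ⟨hT'm g, ?_⟩
      ext A hA
      rw [Measure.map_apply (hT'm g) hA, ← measure_inter_add_sdiff _ hset,
        ← measure_inter_add_sdiff A hset]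
      have e1 : T' g ⁻¹' A ∩ {ω | Mr β ω = true} = TT β p g ⁻¹' (A ∩ {ω | Mr β ω = true}) := by
        ext ω
        simp only [Set.mem_inter_iff, Set.mem_preimage, Set.mem_ofPred_eq, hMT, hT']
        constructor
        · rintro ⟨a, b⟩
          rw [if_pos b] at a
          exact ⟨a, b⟩
        · rintro ⟨a, b⟩
          rw [if_pos b]
          exact ⟨a, b⟩
      have e2 : T' g ⁻¹' A \ {ω | Mr β ω = true} =
          TT β p (fun _ => g 0) ⁻¹' (A \ {ω | Mr β ω = true}) := by
        ext ω
        simp only [Set.mem_sdiff, Set.mem_preimage, Set.mem_ofPred_eq, hMT, hT']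
        constructor
        · rintro ⟨a, b⟩
          rw [if_neg b] at a
          exact ⟨a, b⟩
        · rintro ⟨a, b⟩
          rw [if_neg b]
          exact ⟨a, b⟩
      rw [e1, e2, (hTmp g).measure_preimage (hA.inter hset).nullMeasurableSet,
        (hTmp _).measure_preimage (hA.diff hset).nullMeasurableSet]
    have hjm : Measurable (Function.uncurry T') :=
      measurable_from_prod_countable_right fun g => hT'm g
    have hΘ : MeasurePreserving (fun x : (RW β → Lb3) × (Bit → Bit) => T' x.2 x.1)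
        (m.prod fair2) m := by
      have h1 : MeasurePreserving (fun x : (Bit → Bit) × (RW β → Lb3) => (x.1, T' x.1 x.2))
          (fair2.prod m) (fair2.prod m) :=
        (MeasurePreserving.id fair2).skew_product hjm
          (Filter.Eventually.of_forall fun g => (hT'mp g).map_eq)
      exact (measurePreserving_snd (μ := fair2) (ν := m)).comp
        (h1.comp (Measure.measurePreserving_swap (μ := m) (ν := fair2)))
    have hadd : Measurable fun x : Bit × Bit => x.1 + x.2 := measurable_of_countable _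
    have hSg : MeasurePreserving (fun x : (RW β → Lb3) × (Bit → Bit) => (x.1, x.2 + Bd β p δ x.1))
        (m.prod fair2) (m.prod fair2) := by
      refine (MeasurePreserving.id m).skew_product
        (g := fun (ω : RW β → Lb3) (g : Bit → Bit) => g + Bd β p δ ω) ?_
        (Filter.Eventually.of_forall fun ω => (fair2_add hP (Bd β p δ ω)).map_eq)
      refine measurable_pi_lambda _ fun z => ?_
      have h1 : Measurable fun x : (RW β → Lb3) × (Bit → Bit) => (x.2 z, Bd β p δ x.1 z) :=
        ((measurable_pi_apply z).comp measurable_snd).prodMk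
          (((measurable_pi_apply z).comp hBm).comp measurable_fst)
      exact hadd.comp h1
    -- the skeleton after the flip
    set s := S3 p δ (shiftR β) (fun ω : RW β → Lb3 => ω (rootW β)) with hs
    have hkey : (fun x : (RW β → Lb3) × (Bit → Bit) => s (T' x.2 x.1)) =ᵐ[m.prod fair2]
        fun x => KK δ (x.1 (rootW β), x.2 + Bd β p δ x.1) := by
      have h1 := (Measure.quasiMeasurePreserving_fst (μ := m) (ν := fair2)).ae hae
      filter_upwards [h1] with x hx
      obtain ⟨ω, g⟩ := x
      simp only at hx ⊢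
      by_cases hM : Mr β ω = true
      · have e1 : T' g ω = TT β p g ω := by
          rw [hT']
          exact if_pos hM
        rw [e1]
        have hb1 : ∀ z, Bd β p δ (TT β p g ω) z = Bd β p δ ω z + g z := fun z =>
          bit_true (Rl_TT hFr.inj hr u2 g ω) hM z (Or.inl (hx z).1)
        have hM1 : (ω (rootW β)).1 = true := hM
        refine Prod.ext rfl (Prod.ext ?_ rfl)
        funext d z
        show (if d = δ then Bd β p δ (TT β p g ω) z else if (ω (rootW β)).1 = true then
          (ω (rootW β)).2.1 z else Bd β p δ (TT β p g ω) z) = if (ω (rootW β)).1 = true then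
            (if d = δ then g z + Bd β p δ ω z else (ω (rootW β)).2.1 z) else _
        rw [if_pos hM1, if_pos hM1, hb1, add_comm]
      · have e1 : T' g ω = TT β p (fun _ => g 0) ω := by
          rw [hT']
          exact if_neg hM
        rw [e1]
        have hM1 : ¬(ω (rootW β)).1 = true := hM
        have hM2 : Mr β ω = false := by
          cases h : Mr β ω
          · rfl
          · exact absurd h hM
        have hb1 : ∀ z, Bd β p δ (TT β p (fun _ => g 0) ω) z = g 0 + Bd β p δ ω 0 + z := by
          intro z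
          rw [bit_const (Rl_TT hFr.inj hr u2 (fun _ => g 0) ω) (fun _ _ => rfl) z, (hx z).2 hM2]
          ring
        refine Prod.ext rfl (Prod.ext ?_ rfl)
        funext d z
        show (if d = δ then Bd β p δ (TT β p (fun _ => g 0) ω) z else
          if (ω (rootW β)).1 = true then (ω (rootW β)).2.1 z else
            Bd β p δ (TT β p (fun _ => g 0) ω) z) = if (ω (rootW β)).1 = true then _ else
            (g 0 + Bd β p δ ω 0 + z)
        rw [if_neg hM1, if_neg hM1, hb1, ite_self]
    -- the law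
    have hKK : Measurable (KK δ) := by
      refine measurable_fst.fst.prodMk (Measurable.prodMk ?_
        (measurable_fst.snd.snd.fst.prodMk measurable_fst.snd.snd.snd.fst))
      refine measurable_pi_lambda _ fun d => measurable_pi_lambda _ fun z => ?_
      refine Measurable.ite (measurable_fst.fst (measurableSet_singleton true)) ?_ ?_
      · by_cases hd : d = δ
        · simp only [if_pos hd]
          exact (measurable_pi_apply z).comp measurable_snd
        · simp only [if_neg hd]
          exact (measurable_pi_apply z).comp measurable_fst.snd.fst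
      · exact (measurable_of_countable fun x : Bit => x + z).comp
          ((measurable_pi_apply 0).comp measurable_snd)
    have hev : MeasurePreserving (fun ω : RW β → Lb3 => ω (rootW β)) m (lawL3 e) :=
      measurePreserving_eval_infinitePi (fun _ : RW β => lawL3 e) (rootW β)
    have hev2 : MeasurePreserving (fun x : (RW β → Lb3) × (Bit → Bit) => (x.1 (rootW β), x.2))
        (m.prod fair2) ((lawL3 e).prod fair2) := hev.prod (MeasurePreserving.id fair2)
    calc m.map s = ((m.prod fair2).map fun x => T' x.2 x.1).map s := by rw [hΘ.map_eq]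
      _ = (m.prod fair2).map fun x => s (T' x.2 x.1) := Measure.map_map hSm hΘ.measurable
      _ = (m.prod fair2).map fun x => KK δ (x.1 (rootW β), x.2 + Bd β p δ x.1) :=
        Measure.map_congr hkey
      _ = ((m.prod fair2).map fun x => (x.1, x.2 + Bd β p δ x.1)).map
          fun x => KK δ (x.1 (rootW β), x.2) :=
        (Measure.map_map (hKK.comp hev2.measurable) hSg.measurable).symm
      _ = (m.prod fair2).map fun x => KK δ (x.1 (rootW β), x.2) := by rw [hSg.map_eq]
      _ = ((m.prod fair2).map fun x => (x.1 (rootW β), x.2)).map (KK δ) :=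
        (Measure.map_map hKK hev2.measurable).symm
      _ = kap e := by rw [hev2.map_eq, KK_law hP e hb hl δ]
  · intro ω ω' h
    have h0 : ω (rootW β) = ω' (rootW β) := h _ (Or.inl rfl)
    have hR : Rl hr 0 ω ω' := by
      refine ⟨?_, fun k z hk => ?_⟩
      · rw [h0]
        exact ⟨rfl, rfl, rfl, rfl, fun t => (add_zero _).symm⟩
      · have h1 : ω (UU hr k z) = ω' (UU hr k z) := by
          refine h _ (Or.inr ⟨z, ?_⟩)
          obtain ⟨k, rfl⟩ := Nat.exists_eq_succ_of_ne_zero (by omega : k ≠ 0)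
          show (uw p δ (k + 1) z).head? = _
          rw [u2]
          rfl
        rw [h1]
        exact ⟨rfl, rfl, rfl, rfl, fun t => (add_zero _).symm⟩
    have hB : ∀ z, Bd β p δ ω' z = Bd β p δ ω z := by
      intro z
      rw [bit_const hR (fun _ _ => rfl) z]
      exact add_zero _
    refine Prod.ext (congrArg (fun a : Lb3 => a.1) h0) (Prod.ext ?_
      (Prod.ext (congrArg (fun a : Lb3 => a.2.2.1) h0) (congrArg (fun a : Lb3 => a.2.2.2.1) h0)))
    funext d z
    show (if d = δ then Bd β p δ ω z else if (ω (rootW β)).1 = true then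
      (ω (rootW β)).2.1 z else Bd β p δ ω z) = if d = δ then Bd β p δ ω' z else
        if (ω' (rootW β)).1 = true then (ω' (rootW β)).2.1 z else Bd β p δ ω' z
    rw [hB, h0]

end Pool.Agent.Helper81.OB
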